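import Mathlib
import Pool.Agent.N228.AZ.Stm3
import Pool.Agent.W216.MB.ANN

/-! # Project AZ, part 3: the integral of a radial function over an annulus -/

set_option autoImplicit false
open Metric MeasureTheory Set Filter Topology

namespace Pool.Agent.N221.AZ

open Pool.Agent.W747.MB
open Pool.Agent.TH363.CD
open Pool.Agent.N228.AZ

lemma Y_cont (n : ℕ) : Continuous (fun c : ℂ => Y n c) := by
  unfold Y
  fun_prop

/-- the ratio of the first geometric series -/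
lemma ratio_le : ((2 : ℝ) ^ (-(1 / 4) : ℝ)) ≤ 17 / 20 := by
  have h : ((2 : ℝ) ^ (-(1 / 4) : ℝ)) ^ 4 = 1 / 2 := by
    rw [← Real.rpow_natCast, ← Real.rpow_mul (by norm_num)]
    norm_num
  by_contra hc
  push_neg at hc
  have : (17 / 20 : ℝ) ^ 4 < ((2 : ℝ) ^ (-(1 / 4) : ℝ)) ^ 4 :=
    pow_lt_pow_left₀ hc (by norm_num) (by norm_num)
  rw [h] at this
  norm_num at this

lemma sum_bound (a b : ℝ) (ha : 0 < a) (hb : 0 < b) (M : ℕ) (hM : (2 : ℝ) ^ M ≤ b / a) :
    ∑ m ∈ Finset.range (M + 1), (((2 : ℝ) ^ (-(1 / 4) : ℝ)) ^ m + 2 ^ (m + 1) * a / b + (1 / 2) ^ m) ≤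
      13 := by
  rw [Finset.sum_add_distrib, Finset.sum_add_distrib]
  set r := (2 : ℝ) ^ (-(1 / 4) : ℝ) with hr
  have hr0 : 0 < r := Real.rpow_pos_of_pos (by norm_num) _
  have hr1 : r ≤ 17 / 20 := ratio_le
  have h1 : ∑ m ∈ Finset.range (M + 1), r ^ m ≤ 20 / 3 := by
    calc ∑ m ∈ Finset.range (M + 1), r ^ m ≤ ∑' m : ℕ, r ^ m :=
          (summable_geometric_of_lt_one hr0.le (by linarith)).sum_le_tsum _
            (fun _ _ => by positivity)
      _ = (1 - r)⁻¹ := tsum_geometric_of_lt_one hr0.le (by linarith)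
      _ ≤ 20 / 3 := by
          rw [inv_le_comm₀ (by linarith) (by norm_num)]
          linarith
  have h3 : ∑ m ∈ Finset.range (M + 1), (1 / 2 : ℝ) ^ m ≤ 2 := by
    calc ∑ m ∈ Finset.range (M + 1), (1 / 2 : ℝ) ^ m ≤ ∑' m : ℕ, (1 / 2 : ℝ) ^ m :=
          summable_geometric_two.sum_le_tsum _ (fun _ _ => by positivity)
      _ = 2 := tsum_geometric_two
  have h2 : ∑ m ∈ Finset.range (M + 1), (2 : ℝ) ^ (m + 1) * a / b ≤ 4 := by
    have e : ∑ m ∈ Finset.range (M + 1), (2 : ℝ) ^ (m + 1) * a / b =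
        (2 * (2 ^ (M + 1) - 1)) * a / b := by
      rw [← Finset.sum_div, ← Finset.sum_mul]
      congr 2
      have : ∑ m ∈ Finset.range (M + 1), (2 : ℝ) ^ (m + 1) =
          2 * ∑ m ∈ Finset.range (M + 1), (2 : ℝ) ^ m := by
        rw [Finset.mul_sum]
        exact Finset.sum_congr rfl fun m _ => by ring
      rw [this, geom_sum_eq (by norm_num)]
      norm_num
    rw [e, div_le_iff₀ hb]
    have h4 : (2 : ℝ) ^ M * a ≤ b := by
      rw [le_div_iff₀ ha] at hM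
      exact hM
    have h5 : (2 : ℝ) ^ (M + 1) = 2 * 2 ^ M := by ring
    rw [h5]
    nlinarith
  linarith

theorem main : P_RAD := by
  refine ⟨30000, by norm_num, fun n a b hn ha hab hb => ?_⟩
  have hn' : (2 : ℝ) ≤ n := by exact_mod_cast hn
  have hn0 : (0 : ℝ) < n := by linarith
  have ha0 : 0 < a := by linarith
  have hb0 : 0 < b := by linarith
  have hba : 1 ≤ b / a := by rwa [le_div_iff₀ ha0, one_mul]
  obtain ⟨M, hM1, hM2⟩ := exists_nat_pow_near hba (one_lt_two : (1 : ℝ) < 2)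
  set S : Fin (M + 1) → Set ℂ := fun m => {c : ℂ | 2 ^ (m : ℕ) * a ≤ Y n c ∧ Y n c ≤ 2 ^ ((m : ℕ) + 1) * a} ∩
    Zn n a b with hS
  have hYm : Measurable (fun c : ℂ => Y n c) := (Y_cont n).measurable
  have hZm : MeasurableSet (Zn n a b) :=
    (measurableSet_le measurable_const hYm).inter (measurableSet_le hYm measurable_const)
  have hSm : ∀ m, MeasurableSet (S m) := fun m =>
    ((measurableSet_le measurable_const hYm).inter (measurableSet_le hYm measurable_const)).inter hZm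
  have hcov : Zn n a b ⊆ ⋃ m, S m := by
    intro c hc
    have hc1 : a ≤ Y n c := hc.1
    have hc2 : Y n c ≤ b := hc.2
    have h1 : 1 ≤ Y n c / a := by rwa [le_div_iff₀ ha0, one_mul]
    obtain ⟨m, hm1, hm2⟩ := exists_nat_pow_near h1 (one_lt_two : (1 : ℝ) < 2)
    have hmM : m < M + 1 := by
      have h3 : (2 : ℝ) ^ m < 2 ^ (M + 1) := by
        calc (2 : ℝ) ^ m ≤ Y n c / a := hm1
          _ ≤ b / a := by gcongr
          _ < 2 ^ (M + 1) := hM2
      exact (pow_lt_pow_iff_right₀ (one_lt_two : (1 : ℝ) < 2)).1 h3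
    rw [mem_iUnion]
    refine ⟨⟨m, hmM⟩, ⟨?_, ?_⟩, hc⟩
    · rwa [le_div_iff₀ ha0] at hm1
    · rw [div_lt_iff₀ ha0] at hm2
      exact hm2.le
  set g : ℕ → ℝ := fun m => ((2 : ℝ) ^ (-(1 / 4) : ℝ)) ^ m + 2 ^ (m + 1) * a / b + (1 / 2) ^ m with hg
  have hg0 : ∀ m, 0 ≤ g m := fun m => by
    have : 0 < (2 : ℝ) ^ (-(1 / 4) : ℝ) := Real.rpow_pos_of_pos (by norm_num) _
    rw [hg]; positivity
  have hpt : ∀ m : Fin (M + 1), ∀ c ∈ S m,
      ENNReal.ofReal ((Y n c) ^ (-(1 / 4) : ℝ) + Y n c / b + a / Y n c) ≤ ENNReal.ofReal (g m) := by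
    intro m c hc
    obtain ⟨⟨h1, h2⟩, h3, h4⟩ := hc
    refine ENNReal.ofReal_le_ofReal ?_
    have hp : (0 : ℝ) < 2 ^ (m : ℕ) := by positivity
    have hY0 : 0 < Y n c := lt_of_lt_of_le (by positivity) h1
    have hY1 : (2 : ℝ) ^ (m : ℕ) ≤ Y n c := by
      refine le_trans ?_ h1
      nlinarith
    have e1 : (Y n c) ^ (-(1 / 4) : ℝ) ≤ ((2 : ℝ) ^ (-(1 / 4) : ℝ)) ^ (m : ℕ) := by
      calc (Y n c) ^ (-(1 / 4) : ℝ) ≤ ((2 : ℝ) ^ (m : ℕ)) ^ (-(1 / 4) : ℝ) :=
            Real.rpow_le_rpow_of_nonpos hp hY1 (by norm_num)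
        _ = ((2 : ℝ) ^ (-(1 / 4) : ℝ)) ^ (m : ℕ) := by
            rw [← Real.rpow_natCast, ← Real.rpow_mul (by norm_num), ← Real.rpow_natCast,
              ← Real.rpow_mul (by norm_num), mul_comm]
    have e2 : Y n c / b ≤ 2 ^ ((m : ℕ) + 1) * a / b := by gcongr
    have e3 : a / Y n c ≤ (1 / 2) ^ (m : ℕ) := by
      rw [div_le_iff₀ hY0, one_div, inv_pow]
      have : (2 ^ (m : ℕ) : ℝ)⁻¹ * (2 ^ (m : ℕ) * a) ≤ (2 ^ (m : ℕ) : ℝ)⁻¹ * Y n c :=
        mul_le_mul_of_nonneg_left h1 (by positivity)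
      rwa [inv_mul_cancel_left₀ hp.ne'] at this
    rw [hg]
    simp only
    linarith
  have hvol : ∀ m : Fin (M + 1), volume (S m) ≤ ENNReal.ofReal (2000 * Real.log 2 / n) := by
    intro m
    have hp : (0 : ℝ) < 2 ^ (m : ℕ) := by positivity
    have hm : (2 : ℝ) ^ (m : ℕ) ≤ 2 ^ M :=
      pow_le_pow_right₀ (by norm_num) (Nat.lt_succ_iff.1 m.2)
    have hle : (2 : ℝ) ^ M * a ≤ b := by rwa [le_div_iff₀ ha0] at hM1
    have h1 := Pool.Agent.W216.MB.ANN.main n hn (2 ^ (m : ℕ) * a) (2 ^ ((m : ℕ) + 1) * a)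
      (by positivity) (by rw [pow_succ]; nlinarith) (by
        rw [pow_succ]
        nlinarith)
    have e : (2 : ℝ) ^ ((m : ℕ) + 1) * a / (2 ^ (m : ℕ) * a) = 2 := by
      rw [pow_succ]; field_simp
    rw [e] at h1
    exact (measure_mono inter_subset_left).trans h1
  calc ∫⁻ c in Zn n a b, ENNReal.ofReal ((Y n c) ^ (-(1 / 4) : ℝ) + Y n c / b + a / Y n c)
      ≤ ∫⁻ c in ⋃ m, S m, ENNReal.ofReal ((Y n c) ^ (-(1 / 4) : ℝ) + Y n c / b + a / Y n c) :=
        lintegral_mono_set hcov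
    _ ≤ ∑' m, ∫⁻ c in S m, ENNReal.ofReal ((Y n c) ^ (-(1 / 4) : ℝ) + Y n c / b + a / Y n c) :=
        lintegral_iUnion_le _ _
    _ ≤ ∑' m : Fin (M + 1), ENNReal.ofReal (g m) * ENNReal.ofReal (2000 * Real.log 2 / n) := by
        refine ENNReal.tsum_le_tsum fun m => ?_
        calc _ ≤ ∫⁻ _ in S m, ENNReal.ofReal (g m) := setLIntegral_mono' (hSm m) (hpt m)
          _ = ENNReal.ofReal (g m) * volume (S m) := setLIntegral_const _ _
          _ ≤ _ := by gcongr; exact hvol m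
    _ = ENNReal.ofReal ((∑ m ∈ Finset.range (M + 1), g m) * (2000 * Real.log 2 / n)) := by
        rw [tsum_fintype, ← Finset.sum_mul, ENNReal.ofReal_mul (Finset.sum_nonneg fun m _ => hg0 m),
          ENNReal.ofReal_sum_of_nonneg (fun m _ => hg0 m), Finset.sum_range]
    _ ≤ ENNReal.ofReal (30000 / n) := by
        refine ENNReal.ofReal_le_ofReal ?_
        have h1 := sum_bound a b ha0 hb0 M hM1
        have h2 : Real.log 2 < 1 := by have := Real.log_two_lt_d9; linarith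
        have h3 : 0 < Real.log 2 := Real.log_pos (by norm_num)
        calc (∑ m ∈ Finset.range (M + 1), g m) * (2000 * Real.log 2 / n)
            ≤ 13 * (2000 * 1 / n) := by
              refine mul_le_mul h1 ?_ (by positivity) (by norm_num)
              gcongr
          _ ≤ 30000 / n := by
              rw [← mul_div_assoc]
              gcongr
              norm_num

end Pool.Agent.N221.AZ
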